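import Pool.Agent.R847.QV.Dg
import Pool.Agent.TH729.SQ.Comp
import Pool.Agent.TH729.SQ.Values

/-!
# Mazur's conjecture on the components of the closure of the rational points: families of quadrics
of relative dimension at least three (helper847)

We consider the sets `X(ℚ)` of the rational points `(b, y)` of the hypersurfaces
`(1, y) A(b) (1, y)ᵗ = 0` in `𝔸^(n+m)`, where `A` is a symmetric matrix of size `m + 1` of polynomials
over `ℚ` in `b = (b₁, …, b_n)`, of arbitrary degrees (that is, `f(b, y) = 0` with a polynomial `f` of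
degree at most two in `y`), in the following cases:

(a) `n = 1` and `A(t)` has rank at least five for some `t`;

(b) `m ≥ 4`, `det A ≠ 0`, and there are only finitely many rational vertices (`A(b) (1, y)ᵗ = 0`);

(c) `m ≥ 4` and `X : c₀ ∏ⱼ l₀ⱼ(b) + ∑ᵢ cᵢ ∏ⱼ lᵢⱼ(b) yᵢ² = 0`, with polynomials `lᵢⱼ ≠ 0` of degree at
most one and rational numbers `cᵢ ≠ 0`.

The closure of `X(ℚ)` in `ℝ^(n+m)` has only finitely many connected components. More generally this
is true for the closure of the set of the values of rational functions at the rational points of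
products of such varieties and affine spaces.
-/

set_option autoImplicit false

namespace Pool.Agent.Results.MP_4d3b00_ag.QuadricFamiliesRankFive

open Matrix Pool.Agent.TH729.SQ Pool.Agent.H581R2 Pool.Agent.R847.QB Pool.Agent.R847.QV

/-- The parameters `b`: the first `n` coordinates. -/
def par {R : Type} {n m : ℕ} (x : Fin (n + m) → R) : Fin n → R := fun i => x (Fin.castAdd m i)

/-- The vector `(1, y)`, where `y` are the last `m` coordinates. -/
def vec {R : Type} [One R] {n m : ℕ} (x : Fin (n + m) → R) : Fin (m + 1) → R :=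
  Fin.cons 1 fun j => x (Fin.natAdd n j)

/-- The rational points `(b, y)` with `(1, y) A(b) (1, y)ᵗ = 0`. -/
def points {n m : ℕ} (A : Matrix (Fin (m + 1)) (Fin (m + 1)) (MvPolynomial (Fin n) ℚ)) :
    Set (Fin (n + m) → ℚ) :=
  {x | vec x ⬝ᵥ A.map (MvPolynomial.eval (par x)) *ᵥ vec x = 0}

/-- The rational vertices: `A(b) (1, y)ᵗ = 0`. -/
def vertices {n m : ℕ} (A : Matrix (Fin (m + 1)) (Fin (m + 1)) (MvPolynomial (Fin n) ℚ)) :
    Set (Fin (n + m) → ℚ) :=
  {x | A.map (MvPolynomial.eval (par x)) *ᵥ vec x = 0}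

/-- The sets of rational points of the families (a), (b), (c). -/
def Family {n m : ℕ} (D : Set (Fin (n + m) → ℚ)) : Prop :=
  (∃ A : Matrix (Fin (m + 1)) (Fin (m + 1)) (MvPolynomial (Fin n) ℚ), A.IsSymm ∧ D = points A ∧
    ((n = 1 ∧ ∃ t : Fin n → ℚ, 5 ≤ (A.map (MvPolynomial.eval t)).rank) ∨
      (4 ≤ m ∧ A.det ≠ 0 ∧ (vertices A).Finite))) ∨
  (4 ≤ m ∧ ∃ (c : Fin (m + 1) → ℚ) (d : Fin (m + 1) → ℕ)
    (l : ∀ i, Fin (d i) → MvPolynomial (Fin n) ℚ), (∀ i, c i ≠ 0) ∧
      (∀ i j, l i j ≠ 0 ∧ (l i j).totalDegree ≤ 1) ∧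
      D = {x : Fin (n + m) → ℚ |
        ∑ i, c i * (∏ j, MvPolynomial.eval (par x) (l i j)) * vec x i ^ 2 = 0})

theorem Family.sa {n m : ℕ} {D : Set (Fin (n + m) → ℚ)} (h : Family D) :
    SA (closure (rv '' D)) := by
  have hpts : ∀ A : Matrix (Fin (m + 1)) (Fin (m + 1)) (MvPolynomial (Fin n) ℚ),
      points A = pts A Set.univ := by
    intro A
    ext x
    exact ⟨fun h => ⟨Set.mem_univ _, h⟩, fun h => h.2⟩
  rcases h with ⟨A, hA, rfl, h | ⟨hm, hdet, hfin⟩⟩ | ⟨hm, c, d, l, hc, hl, rfl⟩
  · rw [hpts]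
    obtain ⟨rfl, ht⟩ := h
    exact main3 hA ht
  · rw [hpts]
    exact finiteSA hA hm hdet hfin
  · have h1 := diagSA hm hc d l (fun i j => (hl i j).1) fun i j => (hl i j).2
    have h2 : pts (DQ c d l) Set.univ = {x : Fin (n + m) → ℚ |
        ∑ i, c i * (∏ j, MvPolynomial.eval (par x) (l i j)) * vec x i ^ 2 = 0} := by
      ext x
      have h3 := quad_DQ c d l (bs x) (fb x)
      constructor
      · rintro ⟨-, h⟩
        rw [h3] at h
        exact h
      · intro h
        refine ⟨Set.mem_univ _, ?_⟩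
        rw [h3]
        exact h
    rw [h2] at h1
    exact h1

theorem rl_eq {N : Type} (D : Set (N → ℚ)) :
    rl D = (fun (r : N → ℚ) i => ((r i : ℚ) : ℝ)) '' D := by
  ext x
  constructor
  · rintro ⟨r, hr, rfl⟩
    exact ⟨r, hr, rfl⟩
  · rintro ⟨r, hr, rfl⟩
    exact ⟨r, hr, rfl⟩

/-- **The components of the closure of the set of rational points of families of quadrics.** -/
theorem result :
    -- (1) the closure of the set of the rational points
    (∀ (n m : ℕ) (D : Set (Fin (n + m) → ℚ)), Family D →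
      Finite (ConnectedComponents ↥(closure
        {x : Fin (n + m) → ℝ | ∃ r ∈ D, x = fun k => (r k : ℝ)}))) ∧
    -- (2) the closure of the set of the values of rational functions on products
    (∀ (J κ : Type) [Finite J] [Finite κ] (n m : ℕ) (D : J → Set (Fin (n + m) → ℚ)),
      (∀ j, Family (D j)) →
      ∀ (k : ℕ) (p : Fin k → MvPolynomial ((J × Fin (n + m)) ⊕ κ) ℚ)
        (q : MvPolynomial ((J × Fin (n + m)) ⊕ κ) ℚ),
        Finite (ConnectedComponents ↥(closure
          {y : Fin k → ℝ | ∃ (x : J → Fin (n + m) → ℚ) (u : κ → ℚ), (∀ j, x j ∈ D j) ∧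
            MvPolynomial.eval (Sum.elim (fun a => x a.1 a.2) u) q ≠ 0 ∧
            ∀ i, y i = ((MvPolynomial.eval (Sum.elim (fun a => x a.1 a.2) u) (p i) /
              MvPolynomial.eval (Sum.elim (fun a => x a.1 a.2) u) q : ℚ) : ℝ)}))) := by
  have key : ∀ (n m : ℕ) (D : Set (Fin (n + m) → ℚ)), Family D → SA (closure (rl D)) := by
    intro n m D h
    rw [rl_eq]
    exact h.sa
  refine ⟨fun n m D h => sa_comp (key n m D h), ?_⟩
  intro J κ _ _ n m D h k p q
  exact sa_comp (values_main D (fun j => key n m (D j) (h j)) p q)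

end Pool.Agent.Results.MP_4d3b00_ag.QuadricFamiliesRankFive
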